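import Mathlib

/-!
# A filter on the natural numbers
-/

set_option autoImplicit false

open Filter Topology

namespace Pool.Agent.X109.CD

/-- the `m`-th group of starting points: the multiples of `2 ^ m` in `[4 ^ m, 4 ^ (m + 1))` -/
def G (m : ℕ) : Finset ℕ := (Finset.range (3 * 2 ^ m)).image (fun j => 4 ^ m + j * 2 ^ m)

theorem card_G (m : ℕ) : (G m).card = 3 * 2 ^ m := by
  unfold G
  rw [Finset.card_image_of_injective, Finset.card_range]
  intro a b h
  have h1 : a * 2 ^ m = b * 2 ^ m := Nat.add_left_cancel h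
  exact Nat.eq_of_mul_eq_mul_right (by positivity) h1

theorem four_pow (m : ℕ) : (4 : ℕ) ^ m = 2 ^ m * 2 ^ m := by
  rw [← mul_pow]; norm_num

theorem mem_G {m n : ℕ} (h : n ∈ G m) : 4 ^ m ≤ n ∧ n + 2 ^ m ≤ 4 ^ (m + 1) ∧ 2 ^ m ∣ n := by
  unfold G at h
  rw [Finset.mem_image] at h
  obtain ⟨j, hj, rfl⟩ := h
  rw [Finset.mem_range] at hj
  refine ⟨Nat.le_add_right _ _, ?_, ?_⟩
  · have h1 : (j + 1) * 2 ^ m ≤ 3 * 2 ^ m * 2 ^ m := Nat.mul_le_mul_right _ hj
    have h2 : 4 ^ (m + 1) = 4 ^ m + 3 * 2 ^ m * 2 ^ m := by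
      rw [pow_succ, four_pow]; ring
    rw [h2]
    calc 4 ^ m + j * 2 ^ m + 2 ^ m = 4 ^ m + (j + 1) * 2 ^ m := by ring
      _ ≤ _ := Nat.add_le_add_left h1 _
  · exact dvd_add (four_pow m ▸ dvd_mul_right _ _) (dvd_mul_left _ _)

theorem log_of_mem {m n i : ℕ} (h : n ∈ G m) (hi : i < 2 ^ m) : Nat.log 4 (n + i) = m := by
  obtain ⟨h1, h2, _⟩ := mem_G h
  rw [Nat.log_eq_iff (Or.inr ⟨by norm_num, by have := Nat.pow_pos (n := m) (show 0 < 4 by norm_num); omega⟩)]
  constructor <;> omega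

theorem mod_of_mem {m n i : ℕ} (h : n ∈ G m) (hi : i < 2 ^ m) : (n + i) % 2 ^ m = i := by
  obtain ⟨_, _, c, rfl⟩ := mem_G h
  rw [Nat.mul_add_mod, Nat.mod_eq_of_lt hi]

open Classical in
/-- the elements of the `m`-th group outside `S` -/
noncomputable def bad (S : Set ℕ) (m : ℕ) : Finset ℕ := (G m).filter (fun n => n ∉ S)

theorem mem_bad {S : Set ℕ} {m n : ℕ} : n ∈ bad S m ↔ n ∈ G m ∧ n ∉ S := by
  classical
  simp [bad]

/-- the filter of the sets missing a bounded number of elements of each group -/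
def 𝓖 : Filter ℕ where
  sets := {S | ∃ C : ℕ, ∀ m, (bad S m).card ≤ C}
  univ_sets := by
    refine ⟨0, fun m => ?_⟩
    rw [Nat.le_zero, Finset.card_eq_zero, Finset.eq_empty_iff_forall_notMem]
    intro n hn
    exact (mem_bad.1 hn).2 (Set.mem_univ _)
  sets_of_superset := by
    rintro S T ⟨C, hC⟩ hST
    refine ⟨C, fun m => le_trans (Finset.card_le_card ?_) (hC m)⟩
    intro n hn
    rw [mem_bad] at hn ⊢
    exact ⟨hn.1, fun h => hn.2 (hST h)⟩
  inter_sets := by
    classical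
    rintro S T ⟨C, hC⟩ ⟨C', hC'⟩
    refine ⟨C + C', fun m => ?_⟩
    refine le_trans (Finset.card_le_card (t := bad S m ∪ bad T m) ?_)
      ((Finset.card_union_le _ _).trans (Nat.add_le_add (hC m) (hC' m)))
    intro n hn
    rw [mem_bad] at hn
    rw [Finset.mem_union, mem_bad, mem_bad]
    by_cases hS : n ∈ S
    · exact Or.inr ⟨hn.1, fun hT => hn.2 ⟨hS, hT⟩⟩
    · exact Or.inl ⟨hn.1, hS⟩

theorem mem_𝓖 {S : Set ℕ} : S ∈ 𝓖 ↔ ∃ C : ℕ, ∀ m, (bad S m).card ≤ C :=
  Iff.rfl

theorem 𝓖_le : 𝓖 ≤ atTop := by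
  rw [atTop_basis.ge_iff]
  intro N _
  refine ⟨N, fun m => ?_⟩
  have h : (bad (Set.Ici N) m).card ≤ (Finset.range N).card := by
    apply Finset.card_le_card
    intro n hn
    rw [mem_bad, Set.mem_Ici, not_le] at hn
    exact Finset.mem_range.2 hn.2
  rwa [Finset.card_range] at h

/-- an element of the filter meets all the large groups -/
theorem meets {S : Set ℕ} (hS : S ∈ 𝓖) : ∃ M : ℕ, ∀ m, M ≤ m → ∃ n ∈ G m, n ∈ S := by
  obtain ⟨C, hC⟩ := hS
  refine ⟨C, fun m hm => ?_⟩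
  by_contra hno
  push Not at hno
  have h1 : G m ⊆ bad S m := fun n hn => mem_bad.2 ⟨hn, hno n hn⟩
  have h2 := (Finset.card_le_card h1).trans (hC m)
  rw [card_G] at h2
  have h3 : m < 2 ^ m := Nat.lt_two_pow_self
  omega

theorem eventually_good (i : ℕ) : ∀ᶠ n in 𝓖, (∃ m, n ∈ G m ∧ i < 2 ^ m) ∨ ∀ m, n ∉ G m := by
  refine ⟨3 * i, fun m => ?_⟩
  by_cases h : i < 2 ^ m
  · have : bad {n | (∃ m, n ∈ G m ∧ i < 2 ^ m) ∨ ∀ m, n ∉ G m} m = ∅ := by
      rw [Finset.eq_empty_iff_forall_notMem]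
      intro n hn
      rw [mem_bad] at hn
      exact hn.2 (Or.inl ⟨m, hn.1, h⟩)
    exact this ▸ Nat.zero_le _
  · refine (Finset.card_le_card (t := G m) (fun n hn => (mem_bad.1 hn).1)).trans ?_
    rw [card_G]
    omega

theorem eventually_mem_G : ∀ᶠ n in 𝓖, ∃ m, n ∈ G m := by
  refine ⟨0, fun m => ?_⟩
  rw [Nat.le_zero, Finset.card_eq_zero, Finset.eq_empty_iff_forall_notMem]
  intro n hn
  rw [mem_bad] at hn
  exact hn.2 ⟨m, hn.1⟩

/-- every infinite set contains an infinite subset whose translates are negligible -/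
theorem exists_sparse {A : Set ℕ} (hA : A.Infinite) :
    ∃ B ⊆ A, B.Infinite ∧ ∀ i : ℕ, {n | n + i ∉ B} ∈ 𝓖 := by
  classical
  have hnext : ∀ N : ℕ, ∃ a ∈ A, N < a := fun N => hA.exists_gt N
  choose nx hnxA hnx using hnext
  -- the sparse sequence
  let a : ℕ → ℕ := fun j => Nat.rec (nx 0) (fun j aj => nx (4 * aj + j)) j
  have hastep : ∀ j, 4 * a j + j < a (j + 1) := fun j => hnx _
  have haA : ∀ j, a j ∈ A := by
    intro j
    cases j with
    | zero => exact hnxA _
    | succ j => exact hnxA _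
  have hmono : StrictMono a := by
    apply strictMono_nat_of_lt_succ
    intro j
    have := hastep j
    omega
  refine ⟨Set.range a, ?_, Set.infinite_range_of_injective hmono.injective, ?_⟩
  · rintro _ ⟨j, rfl⟩
    exact haA j
  intro i
  refine ⟨i + 1, fun m => ?_⟩
  set T := bad {n | n + i ∉ Set.range a} m with hT
  have hex : ∀ n ∈ T, ∃ j, a j = n + i := by
    intro n hn
    rw [hT, mem_bad] at hn
    by_contra hno
    exact hn.2 hno
  have hTG : ∀ n ∈ T, n ∈ G m := fun n hn => (mem_bad.1 hn).1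
  choose! f hf using hex
  have hinj : Set.InjOn f T := by
    intro x hx y hy hxy
    have h1 := hf x hx
    have h2 := hf y hy
    rw [hxy] at h1
    omega
  have hsub : (T.image f) ⊆ Finset.range i ∪ ((T.image f).filter (fun j => i ≤ j)) := by
    intro j hj
    rw [Finset.mem_union, Finset.mem_range, Finset.mem_filter]
    by_cases h : j < i
    · exact Or.inl h
    · exact Or.inr ⟨hj, not_lt.1 h⟩
  have hone : ((T.image f).filter (fun j => i ≤ j)).card ≤ 1 := by
    rw [Finset.card_le_one]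
    have key : ∀ x ∈ T, ∀ y ∈ T, i ≤ f x → f x < f y → False := by
      intro x hx y hy hix hxy
      have h1 := hf x hx
      have h2 := hf y hy
      have h3 := hastep (f x)
      have h4 : a (f x + 1) ≤ a (f y) := hmono.monotone hxy
      have hx' := mem_G (hTG x hx)
      have hy' := mem_G (hTG y hy)
      have h5 : 0 < 2 ^ m := by positivity
      have h6 : 4 ^ (m + 1) = 4 * 4 ^ m := by rw [pow_succ]; ring
      omega
    intro j hj k hk
    rw [Finset.mem_filter, Finset.mem_image] at hj hk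
    obtain ⟨⟨x, hx, rfl⟩, hjx⟩ := hj
    obtain ⟨⟨y, hy, rfl⟩, hky⟩ := hk
    rcases lt_trichotomy (f x) (f y) with h | h | h
    · exact (key x hx y hy hjx h).elim
    · exact h
    · exact (key y hy x hx hky h).elim
  have h1 : T.card = (T.image f).card := (Finset.card_image_of_injOn hinj).symm
  have h2 := (Finset.card_le_card hsub).trans (Finset.card_union_le _ _)
  rw [Finset.card_range] at h2
  omega

end Pool.Agent.X109.CD
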