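import Pool.Agent.X109.CD.A
import Pool.Agent.X109.CD.B

/-!
# The complete countably dimensional space and the hypercyclic operator
-/

set_option autoImplicit false

open Filter Topology Polynomial

namespace Pool.Agent.X109.CD

/-- the family of weights -/
def 𝒲 : Fam where
  W := {α | (∀ n, 0 < α n) ∧ ∀ i : ℕ, Tendsto (fun n => α (n + i)) 𝓖 (𝓝 0)}
  pos := fun _ h => h.1
  ne := by
    refine ⟨fun n => 1 / ((n : ℝ) + 1), fun n => by positivity, fun i => ?_⟩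
    have h1 := (tendsto_add_atTop_iff_nat (f := fun n : ℕ => 1 / ((n : ℝ) + 1)) i).2
      tendsto_one_div_add_atTop_nhds_zero_nat
    exact h1.mono_left 𝓖_le
  add := by
    rintro α ⟨hα, hα'⟩ β ⟨hβ, hβ'⟩
    refine ⟨fun n => add_pos (hα n) (hβ n), fun i => ?_⟩
    have := (hα' i).add (hβ' i)
    rwa [add_zero] at this

theorem mem_W {α : ℕ → ℝ} : α ∈ 𝒲.W ↔ (∀ n, 0 < α n) ∧ ∀ i : ℕ, Tendsto (fun n => α (n + i)) 𝓖 (𝓝 0) :=
  Iff.rfl

variable {𝕜 : Type} [RCLike 𝕜]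

theorem finite_of_bounded (c : ℕ → 𝕜)
    (h : ∀ α ∈ 𝒲.W, ∃ M : ℝ, ∀ s : Finset ℕ, ∑ n ∈ s, α n * ‖c n‖ ≤ M) :
    {n | c n ≠ 0}.Finite := by
  classical
  by_contra hinf
  obtain ⟨B, hBA, hB, hG⟩ := exists_sparse hinf
  let α : ℕ → ℝ := fun n => if n ∈ B then 1 / ‖c n‖ else 1 / ((n : ℝ) + 1)
  have hα : α ∈ 𝒲.W := by
    refine mem_W.2 ⟨fun n => ?_, fun i => ?_⟩
    · by_cases hn : n ∈ B
      · simp only [α, if_pos hn]
        exact one_div_pos.2 (norm_pos_iff.2 (hBA hn))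
      · simp only [α, if_neg hn]
        positivity
    · have h1 := (tendsto_add_atTop_iff_nat (f := fun n : ℕ => 1 / ((n : ℝ) + 1)) i).2
        tendsto_one_div_add_atTop_nhds_zero_nat
      refine (h1.mono_left 𝓖_le).congr' ?_
      filter_upwards [hG i] with n hn
      have hn' : n + i ∉ B := hn
      simp only [α, if_neg hn']
  obtain ⟨M, hM⟩ := h α hα
  obtain ⟨s, hsB, hs⟩ := hB.exists_subset_card_eq (⌊M⌋₊ + 1)
  have h1 := hM s
  have h2 : ∑ n ∈ s, α n * ‖c n‖ = s.card := by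
    rw [Finset.card_eq_sum_ones, Nat.cast_sum]
    apply Finset.sum_congr rfl
    intro n hn
    have hnB : n ∈ B := hsB hn
    simp only [α, if_pos hnB, Nat.cast_one]
    exact one_div_mul_cancel (norm_ne_zero_iff.2 (hBA hnB))
  rw [h2, hs] at h1
  have h3 := Nat.lt_floor_add_one M
  push_cast at h1
  linarith

/-- the polynomials with coefficients in a countable dense set -/
noncomputable def pol (𝕜 : Type) [RCLike 𝕜] (l : List ℕ) : 𝕜[X] :=
  ∑ i ∈ Finset.range l.length, C (TopologicalSpace.denseSeq 𝕜 (l.getD i 0)) * X ^ i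

theorem degree_pol_lt (l : List ℕ) : (pol 𝕜 l).degree < (l.length : WithBot ℕ) := by
  unfold pol
  rw [← Polynomial.mem_degreeLT]
  apply Submodule.sum_mem
  intro i hi
  rw [Polynomial.mem_degreeLT]
  refine (degree_C_mul_X_pow_le _ _).trans_lt ?_
  exact_mod_cast Finset.mem_range.1 hi

/-- the enumeration of these polynomials -/
noncomputable def v (𝕜 : Type) [RCLike 𝕜] (m : ℕ) : 𝕜[X] :=
  if ((Encodable.decode (α := List ℕ) m.unpair.1).getD []).length ≤ 4 ^ m ∧ 0 < m then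
    pol 𝕜 ((Encodable.decode (α := List ℕ) m.unpair.1).getD []) else 0

theorem degree_v_lt (m : ℕ) : (v 𝕜 m).degree < ((4 ^ m : ℕ) : WithBot ℕ) := by
  unfold v
  split_ifs with h
  · exact (degree_pol_lt _).trans_le (by exact_mod_cast h.1)
  · rw [degree_zero]
    exact WithBot.bot_lt_coe _

theorem v_zero : v 𝕜 0 = 0 := by
  unfold v
  rw [if_neg]
  rintro ⟨_, h⟩
  exact lt_irrefl _ h

theorem exists_v (l : List ℕ) (M : ℕ) : ∃ m, M ≤ m ∧ v 𝕜 m = pol 𝕜 l := by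
  set j := M + l.length + 1
  refine ⟨Nat.pair (Encodable.encode l) j, ?_, ?_⟩
  · have := Nat.right_le_pair (Encodable.encode l) j
    omega
  · have h1 : (Nat.pair (Encodable.encode l) j).unpair.1 = Encodable.encode l := by
      rw [Nat.unpair_pair]
    unfold v
    rw [h1, Encodable.encodek, Option.getD_some, if_pos]
    have h2 := Nat.right_le_pair (Encodable.encode l) j
    refine ⟨?_, by omega⟩
    have h3 : Nat.pair (Encodable.encode l) j < 4 ^ (Nat.pair (Encodable.encode l) j) :=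
      Nat.lt_pow_self (by norm_num)
    omega

/-- the basis polynomials -/
noncomputable def f (𝕜 : Type) [RCLike 𝕜] (n : ℕ) : 𝕜[X] :=
  X ^ n - X ^ (n % 2 ^ (Nat.log 4 n)) * v 𝕜 (Nat.log 4 n)

theorem degree_f (n : ℕ) : (f 𝕜 n).degree = n := by
  unfold f
  rcases Nat.eq_zero_or_pos n with rfl | hn
  · rw [Nat.log_zero_right, v_zero, mul_zero, sub_zero, pow_zero, degree_one]
    rfl
  set m := Nat.log 4 n
  have h4 : 4 ^ m ≤ n := Nat.pow_log_le_self 4 hn.ne'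
  have hmod : n % 2 ^ m + 4 ^ m ≤ n := by
    have h1 : 2 ^ m ≤ n / 2 ^ m := by
      rw [Nat.le_div_iff_mul_le (by positivity), ← four_pow]
      exact h4
    have h2 : 2 ^ m * 2 ^ m ≤ 2 ^ m * (n / 2 ^ m) := Nat.mul_le_mul_left _ h1
    have h3 := Nat.div_add_mod n (2 ^ m)
    rw [← four_pow] at h2
    omega
  have hlt : (X ^ (n % 2 ^ m) * v 𝕜 m).degree < (X ^ n : 𝕜[X]).degree := by
    rw [degree_X_pow]
    by_cases hv : v 𝕜 m = 0
    · rw [hv, mul_zero, degree_zero]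
      exact WithBot.bot_lt_coe _
    · have h5 := degree_v_lt (𝕜 := 𝕜) m
      rw [degree_eq_natDegree hv] at h5
      have h6 : (v 𝕜 m).natDegree < 4 ^ m := by exact_mod_cast h5
      rw [degree_mul, degree_X_pow, degree_eq_natDegree hv, ← Nat.cast_add]
      exact_mod_cast (by omega : n % 2 ^ m + (v 𝕜 m).natDegree < n)
  rw [degree_sub_eq_left_of_degree_lt hlt, degree_X_pow]

/-- the sequence of basis polynomials -/
noncomputable def S (𝕜 : Type) [RCLike 𝕜] : Polynomial.Sequence 𝕜 where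
  elems' := f 𝕜
  degree_eq' := degree_f

/-- the basis -/
noncomputable def b (𝕜 : Type) [RCLike 𝕜] : Module.Basis ℕ 𝕜 𝕜[X] :=
  (S 𝕜).basis (fun i => (leadingCoeff_ne_zero.2 ((S 𝕜).ne_zero i)).isUnit)

theorem b_apply (n : ℕ) : b 𝕜 n = f 𝕜 n :=
  Polynomial.Sequence.basis_eq_self (S 𝕜)
    (fun i => (leadingCoeff_ne_zero.2 ((S 𝕜).ne_zero i)).isUnit) n

/-- polynomials as finitely supported sequences -/
noncomputable def e (𝕜 : Type) [RCLike 𝕜] : 𝕜[X] ≃ₗ[𝕜] E 𝕜 := (b 𝕜).repr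

/-- the unit vectors -/
noncomputable def en (𝕜 : Type) [RCLike 𝕜] (n : ℕ) : E 𝕜 := (Finsupp.single n 1 : ℕ →₀ 𝕜)

theorem e_f (n : ℕ) : e 𝕜 (f 𝕜 n) = en 𝕜 n := by
  rw [← b_apply]
  exact (b 𝕜).repr_self n

theorem co_en (n k : ℕ) : co (en 𝕜 n) k = if n = k then 1 else 0 := by
  unfold co en
  exact Finsupp.single_apply

theorem q_en (α : ℕ → ℝ) (hα : ∀ n, 0 ≤ α n) (n : ℕ) : q α hα (en 𝕜 n) = α n := by
  rw [q_apply, tsum_eq_single n]
  · rw [co_en, if_pos rfl, norm_one, mul_one]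
  · intro k hk
    rw [co_en, if_neg hk.symm, norm_zero, mul_zero]

theorem sum_co (x : E 𝕜) : x = ∑ n ∈ (finite_co x).toFinset, co x n • en 𝕜 n := by
  apply ext_co
  intro k
  have h1 : ∀ (s : Finset ℕ) (g : ℕ → E 𝕜), co (∑ n ∈ s, g n) k = ∑ n ∈ s, co (g n) k := by
    intro s g
    exact Finsupp.finsetSum_apply s g k
  rw [h1]
  by_cases hk : co x k = 0
  · rw [hk, Finset.sum_eq_zero]
    intro n hn
    rw [co_smul, co_en]
    split_ifs with h
    · subst h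
      rw [hk, zero_mul]
    · rw [mul_zero]
  · rw [Finset.sum_eq_single k]
    · rw [co_smul, co_en, if_pos rfl, mul_one]
    · intro n _ hn
      rw [co_smul, co_en, if_neg hn, mul_zero]
    · intro h
      exact absurd ((finite_co x).mem_toFinset.2 hk) h

/-- multiplication by `X`, seen on finitely supported sequences -/
noncomputable def T (𝕜 : Type) [RCLike 𝕜] : E 𝕜 →ₗ[𝕜] E 𝕜 :=
  (e 𝕜).toLinearMap ∘ₗ (LinearMap.mulLeft 𝕜 (X : 𝕜[X])) ∘ₗ (e 𝕜).symm.toLinearMap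

theorem T_e (p : 𝕜[X]) : T 𝕜 (e 𝕜 p) = e 𝕜 (X * p) := by
  simp [T]

theorem T_pow (n : ℕ) (p : 𝕜[X]) : (T 𝕜 ^ n) (e 𝕜 p) = e 𝕜 (X ^ n * p) := by
  induction n with
  | zero => simp
  | succ n ih =>
    rw [pow_succ', Module.End.mul_apply, ih, T_e, pow_succ']
    congr 1
    ring

theorem X_mul_f {m n i : ℕ} (h : n ∈ G m) (hi : i + 1 < 2 ^ m) :
    X * f 𝕜 (n + i) = f 𝕜 (n + (i + 1)) := by
  unfold f
  rw [log_of_mem h (by omega), log_of_mem h hi, mod_of_mem h (by omega), mod_of_mem h hi]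
  ring

theorem bounded_T : Seminorm.IsBounded (fam 𝕜 𝒲) (fam 𝕜 𝒲) (T 𝕜) := by
  apply Seminorm.IsBounded.of_real
  rintro ⟨α, hα⟩
  have hα0 : ∀ n, 0 ≤ α n := fun n => (𝒲.pos α hα n).le
  let β : ℕ → ℝ := fun n => q α hα0 (T 𝕜 (en 𝕜 n)) + 1 / ((n : ℝ) + 1)
  have hβ : β ∈ 𝒲.W := by
    refine mem_W.2 ⟨fun n => ?_, fun i => ?_⟩
    · have h1 : 0 ≤ q α hα0 (T 𝕜 (en 𝕜 n)) := apply_nonneg _ _
      have h2 : 0 < 1 / ((n : ℝ) + 1) := by positivity
      exact add_pos_of_nonneg_of_pos h1 h2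
    · have h1 := (tendsto_add_atTop_iff_nat (f := fun n : ℕ => 1 / ((n : ℝ) + 1)) i).2
        tendsto_one_div_add_atTop_nhds_zero_nat
      have h2 := ((mem_W.1 hα).2 (i + 1)).add (h1.mono_left 𝓖_le)
      rw [add_zero] at h2
      refine h2.congr' ?_
      filter_upwards [eventually_good (i + 1), eventually_mem_G] with n hn hn'
      rcases hn with ⟨m, hm, hlt⟩ | hn
      · show α (n + (i + 1)) + 1 / (((n + i : ℕ) : ℝ) + 1) =
          q α hα0 (T 𝕜 (en 𝕜 (n + i))) + 1 / (((n + i : ℕ) : ℝ) + 1)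
        rw [← e_f, T_e, X_mul_f hm hlt, e_f, q_en]
      · obtain ⟨m, hm⟩ := hn'
        exact absurd hm (hn m)
  refine ⟨{⟨β, hβ⟩}, 1, fun x => ?_⟩
  rw [one_mul, Finset.sup_singleton]
  show q α hα0 (T 𝕜 x) ≤ q β _ x
  conv_lhs => rw [sum_co x, map_sum]
  refine (Finset.le_sum_of_subadditive (q α hα0) (map_zero _).le (map_add_le_add _) _ _).trans ?_
  rw [q_eq_sum]
  apply Finset.sum_le_sum
  intro n _
  rw [map_smul, map_smul_eq_mul, mul_comm]
  apply mul_le_mul_of_nonneg_right _ (norm_nonneg _)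
  have h2 : 0 < 1 / ((n : ℝ) + 1) := by positivity
  show q α hα0 (T 𝕜 (en 𝕜 n)) ≤ q α hα0 (T 𝕜 (en 𝕜 n)) + 1 / ((n : ℝ) + 1)
  linarith

/-- polynomials with coefficients in the dense set are dense -/
theorem exists_pol (β : ℕ → ℝ) (hβ : ∀ n, 0 ≤ β n) (y : E 𝕜) {r : ℝ} (hr : 0 < r) :
    ∃ l : List ℕ, q β hβ (e 𝕜 (pol 𝕜 l) - y) < r := by
  set P := (e 𝕜).symm y with hP
  set N := P.natDegree + 1 with hN
  set M := ∑ i ∈ Finset.range N, q β hβ (e 𝕜 (X ^ i)) with hM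
  have hM0 : 0 ≤ M := Finset.sum_nonneg (fun i _ => apply_nonneg _ _)
  have hex : ∀ i, ∃ a : ℕ, ‖TopologicalSpace.denseSeq 𝕜 a - P.coeff i‖ < r / (M + 1) := by
    intro i
    have := TopologicalSpace.denseRange_denseSeq 𝕜
    obtain ⟨a, ha⟩ := this.exists_dist_lt (P.coeff i) (ε := r / (M + 1)) (by positivity)
    exact ⟨a, by rwa [dist_comm, dist_eq_norm] at ha⟩
  choose a ha using hex
  refine ⟨(List.range N).map a, ?_⟩
  have h1 : pol 𝕜 ((List.range N).map a) - P =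
      ∑ i ∈ Finset.range N, (TopologicalSpace.denseSeq 𝕜 (a i) - P.coeff i) • (X ^ i : 𝕜[X]) := by
    have h2 : P = ∑ i ∈ Finset.range N, P.coeff i • (X ^ i : 𝕜[X]) := by
      conv_lhs => rw [P.as_sum_range_C_mul_X_pow]
      simp only [smul_eq_C_mul]
      rfl
    conv_lhs => rw [h2]
    unfold pol
    rw [List.length_map, List.length_range, ← Finset.sum_sub_distrib]
    apply Finset.sum_congr rfl
    intro i hi
    have hi' := Finset.mem_range.1 hi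
    rw [sub_smul, ← smul_eq_C_mul]
    congr 2
    simp [List.getD, hi']
  have h2 : e 𝕜 (pol 𝕜 ((List.range N).map a)) - y =
      ∑ i ∈ Finset.range N, (TopologicalSpace.denseSeq 𝕜 (a i) - P.coeff i) • e 𝕜 (X ^ i : 𝕜[X]) := by
    have : y = e 𝕜 P := by rw [hP, LinearEquiv.apply_symm_apply]
    rw [this, ← map_sub, h1, map_sum]
    simp only [map_smul]
  rw [h2]
  refine (Finset.le_sum_of_subadditive (q β hβ) (map_zero _).le (map_add_le_add _) _ _).trans_lt ?_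
  have h3 : ∑ i ∈ Finset.range N,
      q β hβ ((TopologicalSpace.denseSeq 𝕜 (a i) - P.coeff i) • e 𝕜 (X ^ i : 𝕜[X])) ≤
      ∑ i ∈ Finset.range N, r / (M + 1) * q β hβ (e 𝕜 (X ^ i)) := by
    apply Finset.sum_le_sum
    intro i _
    rw [map_smul_eq_mul]
    exact mul_le_mul_of_nonneg_right (ha i).le (apply_nonneg _ _)
  refine h3.trans_lt ?_
  rw [← Finset.mul_sum, ← hM, div_mul_eq_mul_div, div_lt_iff₀ (by linarith)]
  nlinarith

/-- the orbit of `1` is dense -/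
theorem orbit_dense (s : Finset 𝒲.W) (y : E 𝕜) {r : ℝ} (hr : 0 < r) :
    ∃ n : ℕ, (s.sup (fam 𝕜 𝒲)) ((T 𝕜 ^ n) (e 𝕜 1) - y) < r := by
  obtain ⟨⟨β, hβ⟩, hmaj⟩ := exists_major (𝕜 := 𝕜) 𝒲 s
  have hβ0 : ∀ n, 0 ≤ β n := fun n => (𝒲.pos β hβ n).le
  obtain ⟨l, hl⟩ := exists_pol β hβ0 y (half_pos hr)
  have hS : {n | β n < r / 2} ∈ 𝓖 := by
    have := (mem_W.1 hβ).2 0
    exact (this.eventually (gt_mem_nhds (half_pos hr)))
  obtain ⟨M, hM⟩ := meets hS
  obtain ⟨m, hMm, hv⟩ := exists_v (𝕜 := 𝕜) l M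
  obtain ⟨n, hnG, hn⟩ := hM m hMm
  refine ⟨n, (hmaj _).trans_lt ?_⟩
  have h0 : 0 < 2 ^ m := by positivity
  have hf : f 𝕜 n = X ^ n - pol 𝕜 l := by
    have h1 := log_of_mem (i := 0) hnG h0
    have h2 := mod_of_mem (i := 0) hnG h0
    rw [add_zero] at h1 h2
    unfold f
    rw [h1, h2, hv, pow_zero, one_mul]
  have h1 : (T 𝕜 ^ n) (e 𝕜 1) - y = en 𝕜 n + (e 𝕜 (pol 𝕜 l) - y) := by
    rw [T_pow, mul_one, ← e_f, hf, map_sub]
    abel
  show q β hβ0 _ < r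
  rw [h1]
  have h2 := map_add_le_add (q β hβ0) (en 𝕜 n) (e 𝕜 (pol 𝕜 l) - y)
  rw [q_en] at h2
  have h3 : β n < r / 2 := hn
  linarith

end Pool.Agent.X109.CD
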