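import Mathlib

/-!
# Weighted `ℓ₁` seminorms on finitely supported sequences
-/

set_option autoImplicit false

open Filter Topology

namespace Pool.Agent.X109.CD

/-- finitely supported sequences -/
def E (𝕜 : Type) [RCLike 𝕜] : Type := ℕ →₀ 𝕜

variable {𝕜 : Type} [RCLike 𝕜]

noncomputable instance : AddCommGroup (E 𝕜) := inferInstanceAs (AddCommGroup (ℕ →₀ 𝕜))
noncomputable instance : Module 𝕜 (E 𝕜) := inferInstanceAs (Module 𝕜 (ℕ →₀ 𝕜))

/-- the coordinates -/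
def co (x : E 𝕜) (n : ℕ) : 𝕜 := (show ℕ →₀ 𝕜 from x) n

theorem co_add (x y : E 𝕜) (n : ℕ) : co (x + y) n = co x n + co y n := rfl
theorem co_sub (x y : E 𝕜) (n : ℕ) : co (x - y) n = co x n - co y n := rfl
theorem co_smul (c : 𝕜) (x : E 𝕜) (n : ℕ) : co (c • x) n = c * co x n := rfl
theorem co_zero (n : ℕ) : co (0 : E 𝕜) n = 0 := rfl

theorem ext_co {x y : E 𝕜} (h : ∀ n, co x n = co y n) : x = y := Finsupp.ext h

theorem finite_co (x : E 𝕜) : {n | co x n ≠ 0}.Finite := (show ℕ →₀ 𝕜 from x).support.finite_toSet.subset (fun n hn => by simpa [co] using hn)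

theorem summable_co (α : ℕ → ℝ) (x : E 𝕜) : Summable (fun n => α n * ‖co x n‖) := by
  apply summable_of_hasFiniteSupport
  refine (finite_co x).subset ?_
  intro n hn h0
  apply hn
  show α n * ‖co x n‖ = 0
  rw [h0, norm_zero, mul_zero]

/-- the weighted `ℓ₁` seminorm -/
noncomputable def q (α : ℕ → ℝ) (hα : ∀ n, 0 ≤ α n) : Seminorm 𝕜 (E 𝕜) :=
  Seminorm.of (fun x => ∑' n, α n * ‖co x n‖)
    (fun x y => by
      rw [← (summable_co α x).tsum_add (summable_co α y)]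
      apply (summable_co α (x + y)).tsum_le_tsum _ ((summable_co α x).add (summable_co α y))
      intro n
      rw [co_add, ← mul_add]
      exact mul_le_mul_of_nonneg_left (norm_add_le _ _) (hα n))
    (fun c x => by
      rw [← tsum_mul_left]
      congr 1
      ext n
      rw [co_smul, norm_mul]
      ring)

theorem q_apply (α : ℕ → ℝ) (hα : ∀ n, 0 ≤ α n) (x : E 𝕜) :
    q α hα x = ∑' n, α n * ‖co x n‖ := rfl

theorem sum_le_q (α : ℕ → ℝ) (hα : ∀ n, 0 ≤ α n) (x : E 𝕜) (s : Finset ℕ) :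
    ∑ n ∈ s, α n * ‖co x n‖ ≤ q α hα x :=
  (summable_co α x).sum_le_tsum s (fun n _ => mul_nonneg (hα n) (norm_nonneg _))

theorem q_eq_sum (α : ℕ → ℝ) (hα : ∀ n, 0 ≤ α n) (x : E 𝕜) :
    q α hα x = ∑ n ∈ (finite_co x).toFinset, α n * ‖co x n‖ := by
  rw [q_apply]
  apply tsum_eq_sum
  intro n hn
  rw [Set.Finite.mem_toFinset] at hn
  have : co x n = 0 := by
    by_contra h
    exact hn h
  rw [this, norm_zero, mul_zero]

/-- a family of positive weights -/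
structure Fam where
  /-- the weights -/
  W : Set (ℕ → ℝ)
  pos : ∀ α ∈ W, ∀ n, 0 < α n
  ne : W.Nonempty
  add : ∀ α ∈ W, ∀ β ∈ W, (fun n => α n + β n) ∈ W

/-- the family of seminorms -/
noncomputable def fam (𝕜 : Type) [RCLike 𝕜] (𝒲 : Fam) : SeminormFamily 𝕜 (E 𝕜) 𝒲.W :=
  fun α => q α.1 (fun n => (𝒲.pos α.1 α.2 n).le)

/-- the topology defined by the family -/
@[reducible] noncomputable def top (𝕜 : Type) [RCLike 𝕜] (𝒲 : Fam) : TopologicalSpace (E 𝕜) :=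
  (fam 𝕜 𝒲).moduleFilterBasis.topology

theorem withSeminorms (𝒲 : Fam) : @WithSeminorms 𝕜 (E 𝕜) 𝒲.W _ _ _ (fam 𝕜 𝒲) (top 𝕜 𝒲) :=
  @WithSeminorms.mk 𝕜 (E 𝕜) 𝒲.W _ _ _ (fam 𝕜 𝒲) (top 𝕜 𝒲) rfl

/-- finitely many weights have a common majorant -/
theorem exists_major (𝒲 : Fam) (s : Finset 𝒲.W) :
    ∃ β : 𝒲.W, ∀ x : E 𝕜, (s.sup (fam 𝕜 𝒲)) x ≤ fam 𝕜 𝒲 β x := by
  classical
  induction s using Finset.induction_on with
  | empty =>
    obtain ⟨β, hβ⟩ := 𝒲.ne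
    refine ⟨⟨β, hβ⟩, fun x => ?_⟩
    rw [Finset.sup_empty]
    exact apply_nonneg _ _
  | insert a s ha ih =>
    obtain ⟨β, hβ⟩ := ih
    refine ⟨⟨_, 𝒲.add a.1 a.2 β.1 β.2⟩, fun x => ?_⟩
    rw [Finset.sup_insert]
    have h1 : fam 𝕜 𝒲 a x ≤ fam 𝕜 𝒲 ⟨_, 𝒲.add a.1 a.2 β.1 β.2⟩ x := by
      apply (summable_co _ x).tsum_le_tsum _ (summable_co _ x)
      intro n
      apply mul_le_mul_of_nonneg_right _ (norm_nonneg _)
      have := 𝒲.pos β.1 β.2 n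
      show a.1 n ≤ a.1 n + β.1 n
      linarith
    have h2 : fam 𝕜 𝒲 β x ≤ fam 𝕜 𝒲 ⟨_, 𝒲.add a.1 a.2 β.1 β.2⟩ x := by
      apply (summable_co _ x).tsum_le_tsum _ (summable_co _ x)
      intro n
      apply mul_le_mul_of_nonneg_right _ (norm_nonneg _)
      have := 𝒲.pos a.1 a.2 n
      show β.1 n ≤ a.1 n + β.1 n
      linarith
    exact sup_le h1 ((hβ x).trans h2)

theorem t2 (𝒲 : Fam) : @T2Space (E 𝕜) (top 𝕜 𝒲) := by
  letI := top 𝕜 𝒲
  have hw := withSeminorms (𝕜 := 𝕜) 𝒲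
  haveI := hw.topologicalAddGroup
  haveI : T1Space (E 𝕜) := by
    apply hw.T1_of_separating
    intro x hx
    obtain ⟨β, hβ⟩ := 𝒲.ne
    refine ⟨⟨β, hβ⟩, ?_⟩
    obtain ⟨n, hn⟩ : ∃ n, co x n ≠ 0 := by
      by_contra h
      push Not at h
      exact hx (ext_co h)
    have h1 := sum_le_q β (fun n => (𝒲.pos β hβ n).le) x {n}
    rw [Finset.sum_singleton] at h1
    have h2 : 0 < β n * ‖co x n‖ := mul_pos (𝒲.pos β hβ n) (norm_pos_iff.2 hn)
    exact (h2.trans_le h1).ne'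
  infer_instance

/-- completeness: it is enough that no infinitely supported sequence is summable against all
the weights -/
theorem complete (𝒲 : Fam)
    (hc : ∀ c : ℕ → 𝕜, (∀ α ∈ 𝒲.W, ∃ M : ℝ, ∀ s : Finset ℕ, ∑ n ∈ s, α n * ‖c n‖ ≤ M) →
      {n | c n ≠ 0}.Finite) :
    letI := top 𝕜 𝒲
    haveI := (withSeminorms (𝕜 := 𝕜) 𝒲).topologicalAddGroup
    @CompleteSpace (E 𝕜) (IsTopologicalAddGroup.rightUniformSpace (E 𝕜)) := by
  letI := top 𝕜 𝒲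
  have hw := withSeminorms (𝕜 := 𝕜) 𝒲
  haveI := hw.topologicalAddGroup
  letI : UniformSpace (E 𝕜) := IsTopologicalAddGroup.rightUniformSpace (E 𝕜)
  haveI : IsUniformAddGroup (E 𝕜) := isUniformAddGroup_of_addCommGroup
  constructor
  intro F hF
  haveI : F.NeBot := hF.1
  -- small sets
  have small : ∀ (α : 𝒲.W) (ε : ℝ), 0 < ε → ∃ S ∈ F, ∀ x ∈ S, ∀ y ∈ S, fam 𝕜 𝒲 α (x - y) < ε := by
    intro α ε hε
    have hU : (fam 𝕜 𝒲 α).ball 0 ε ∈ 𝓝 (0 : E 𝕜) := by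
      rw [hw.mem_nhds_iff]
      exact ⟨{α}, ε, hε, by rw [Finset.sup_singleton]⟩
    have hV : {p : E 𝕜 × E 𝕜 | p.2 - p.1 ∈ (fam 𝕜 𝒲 α).ball 0 ε} ∈ uniformity (E 𝕜) := by
      rw [uniformity_eq_comap_nhds_zero]
      exact preimage_mem_comap hU
    obtain ⟨S, hS, hSV⟩ := (cauchy_iff.1 hF).2 _ hV
    refine ⟨S, hS, fun x hx y hy => ?_⟩
    have : (y, x) ∈ S ×ˢ S := ⟨hy, hx⟩
    have := hSV this
    simpa [Seminorm.mem_ball_zero] using this
  obtain ⟨β, hβ⟩ := 𝒲.ne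
  -- coordinatewise limits
  have hlim : ∀ n, ∃ c : 𝕜, Tendsto (fun x => co x n) F (𝓝 c) := by
    intro n
    have : Cauchy (F.map (fun x => co x n)) := by
      rw [Metric.cauchy_iff]
      refine ⟨inferInstance, fun ε hε => ?_⟩
      obtain ⟨S, hS, hSV⟩ := small ⟨β, hβ⟩ (β n * ε) (mul_pos (𝒲.pos β hβ n) hε)
      refine ⟨(fun x => co x n) '' S, image_mem_map hS, ?_⟩
      rintro _ ⟨x, hx, rfl⟩ _ ⟨y, hy, rfl⟩
      have h1 := hSV x hx y hy
      have h2 := sum_le_q β (fun n => (𝒲.pos β hβ n).le) (x - y) {n}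
      rw [Finset.sum_singleton, co_sub] at h2
      rw [dist_eq_norm]
      exact lt_of_mul_lt_mul_left (h2.trans_lt h1) (𝒲.pos β hβ n).le
    exact CompleteSpace.complete this
  choose c hcl using hlim
  have hfin : {n | c n ≠ 0}.Finite := by
    apply hc
    intro α hα
    obtain ⟨S, hS, hSV⟩ := small ⟨α, hα⟩ 1 one_pos
    obtain ⟨x0, hx0⟩ := nonempty_of_mem hS
    refine ⟨fam 𝕜 𝒲 ⟨α, hα⟩ x0 + 1, fun s => ?_⟩
    have ht : Tendsto (fun x => ∑ n ∈ s, α n * ‖co x n‖) F (𝓝 (∑ n ∈ s, α n * ‖c n‖)) :=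
      tendsto_finsetSum s (fun n _ => ((hcl n).norm).const_mul _)
    refine le_of_tendsto ht ?_
    filter_upwards [hS] with x hx
    have h1 := sum_le_q α (fun n => (𝒲.pos α hα n).le) x s
    have h2 := hSV x hx x0 hx0
    have h3 : fam 𝕜 𝒲 ⟨α, hα⟩ x ≤ fam 𝕜 𝒲 ⟨α, hα⟩ (x - x0) + fam 𝕜 𝒲 ⟨α, hα⟩ x0 := by
      have := map_add_le_add (fam 𝕜 𝒲 ⟨α, hα⟩) (x - x0) x0
      rwa [sub_add_cancel] at this
    have h4 : q α (fun n => (𝒲.pos α hα n).le) x = fam 𝕜 𝒲 ⟨α, hα⟩ x := rfl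
    linarith
  let y : E 𝕜 := (Finsupp.ofSupportFinite c hfin : ℕ →₀ 𝕜)
  have hy : ∀ n, co y n = c n := fun n => rfl
  refine ⟨y, ?_⟩
  have := (hw.tendsto_nhds (u := fun x : E 𝕜 => x) (f := F) y).2 ?_
  · exact this
  intro α ε hε
  obtain ⟨S, hS, hSV⟩ := small α (ε / 2) (half_pos hε)
  filter_upwards [hS] with x hx
  have h1 : fam 𝕜 𝒲 α (x - y) ≤ ε / 2 := by
    have h0 : fam 𝕜 𝒲 α (x - y) = q α.1 (fun n => (𝒲.pos α.1 α.2 n).le) (x - y) := rfl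
    rw [h0, q_eq_sum]
    set s := (finite_co (x - y)).toFinset
    have ht : Tendsto (fun z => ∑ n ∈ s, α.1 n * ‖co x n - co z n‖) F
        (𝓝 (∑ n ∈ s, α.1 n * ‖co x n - c n‖)) :=
      tendsto_finsetSum s (fun n _ => ((tendsto_const_nhds.sub (hcl n)).norm).const_mul _)
    have h2 : ∑ n ∈ s, α.1 n * ‖co x n - c n‖ ≤ ε / 2 := by
      refine le_of_tendsto ht ?_
      filter_upwards [hS] with z hz
      have h3 := sum_le_q α.1 (fun n => (𝒲.pos α.1 α.2 n).le) (x - z) s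
      have h4 := hSV x hx z hz
      have h5 : q α.1 (fun n => (𝒲.pos α.1 α.2 n).le) (x - z) = fam 𝕜 𝒲 α (x - z) := rfl
      simp only [co_sub] at h3
      linarith
    refine le_trans (le_of_eq ?_) h2
    apply Finset.sum_congr rfl
    intro n _
    rw [co_sub, hy]
  linarith

end Pool.Agent.X109.CD
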